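import Pool.Agent.Lib.MP_bd876b_pr.Final
import Pool.Agent.Lib.MP_bd876b_pr.Weak

/-!
# The sampling entropy per point of a random fractal permuton need not converge

For every large even `d` there is a law `F` on `Sym(d)` (a point mass) such that the sampling
entropy `H_n(μ_F) / n` almost surely has no limit.
-/

open MeasureTheory Filter Topology
open Pool.Agent.Lib.MP_bd876b_pr

namespace Pool.Agent.Results.MP_bd876b_pr.EntropyOscillates

/-- The discrete σ-algebra on the symmetric group. -/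
instance permMeasurableSpace (d : ℕ) : MeasurableSpace (Equiv.Perm (Fin d)) := ⊤

instance permDiscrete (d : ℕ) : DiscreteMeasurableSpace (Equiv.Perm (Fin d)) :=
  ⟨fun _ => trivial⟩

theorem result : ∃ d₀ : ℕ, ∀ (d : ℕ) [NeZero d], d₀ ≤ d → Even d →
    ∃ (F : PMF (Equiv.Perm (Fin d))) (σ : Equiv.Perm (Fin d)), F = PMF.pure σ ∧
      ∀ᵐ s ∂(Measure.infinitePi fun _ : List (Fin d) => F.toMeasure),
        (∃ μ, IsFractalPermuton s μ) ∧ ∀ μ, IsFractalPermuton s μ →
          ¬ ∃ c : ℝ, Tendsto (fun n : ℕ => samplingEntropy μ n / n) atTop (𝓝 c) := by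
  refine ⟨⌈1024 * 1600 * Real.exp (3 * 1024)⌉₊ + 10, fun d _ hd hde => ?_⟩
  obtain ⟨m, hm⟩ := hde
  obtain rfl : d = 2 * m := by omega
  refine ⟨PMF.pure (tent m), tent m, rfl, ?_⟩
  have h1 : (1024 * 1600 * Real.exp (3 * 1024) : ℝ) ≤ ((2 * m : ℕ) : ℝ) := by
    refine (Nat.le_ceil _).trans ?_
    exact_mod_cast (Nat.le_add_right _ 10).trans hd
  have h2 := no_limit h1 (m := m) (by omega) rfl (tent m) (isTent m)
  rw [PMF.toMeasure_pure, Measure.infinitePi_dirac, ae_dirac_eq]
  refine ⟨⟨_, isFractalPermuton (by omega) _⟩, fun μ hμ => ?_⟩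
  rw [hμ.eq_permuton (by omega)]
  exact h2

end Pool.Agent.Results.MP_bd876b_pr.EntropyOscillates
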